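import Pool.Agent.R409.RG.Mat
import Pool.Agent.R409.RF.Wt
import Pool.Agent.R409.RC.NF

/-!
# The law at `s = 0` for Euler products of matrices of finite order
-/

set_option autoImplicit false

namespace Pool.Agent.R409.RG

open Complex MeasureTheory Filter Topology Set
open Pool.Agent.W189.ML Pool.Agent.W189.LC Pool.Agent.W187.UR Pool.Agent.R409.RC Pool.Agent.R409.RF

variable {P : Type} {n : ℕ} {q : P → ℝ} {A : P → Matrix (Fin n) (Fin n) ℂ} {F : ℂ → ℂ}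

theorem xd_mat (h2 : ∀ v, 2 ≤ q v) (hs : ∀ σ : ℝ, 1 < σ → Summable fun v => q v ^ (-σ))
    (hA : ∀ v, ∃ N : ℕ, N ≠ 0 ∧ A v ^ N = 1) : XD (0 : ℝ) q (fun v => eig (A v)) where
  two_le := h2
  sum := hs
  norm_le := fun v j => by
    obtain ⟨N, hN, hA⟩ := hA v
    rw [norm_eig (A v) hN hA j, zero_div, Real.rpow_zero]

/-- the terms `κ_γ(k log q_v / T) Tr(A_v^k) / k` -/
noncomputable def tterm (q : P → ℝ) (A : P → Matrix (Fin n) (Fin n) ℂ) (γ T : ℝ) (v : P) (k : ℕ) : ℂ :=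
  (A v ^ k).trace / k * exp ((γ * (k * Real.log (q v) / T) : ℝ) * I) *
    (om (k * Real.log (q v) / T) : ℂ)

theorem law_mat [Countable P] (h2 : ∀ v, 2 ≤ q v)
    (hs : ∀ σ : ℝ, 1 < σ → Summable fun v => q v ^ (-σ))
    (hA : ∀ v, ∃ N : ℕ, N ≠ 0 ∧ A v ^ N = 1)
    (hmer : ∀ x : ℝ, 0 ≤ x → x ≤ 1 → MeromorphicAt F (x : ℂ))
    (hF : ∀ s : ℂ, 1 < s.re → F s = ∏' v, ((1 - (q v : ℂ) ^ (-s) • A v).det)⁻¹) :
    ∃ (m : ℤ) (r₀ : ℂ), meromorphicOrderAt F 0 = m ∧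
      exp r₀ = meromorphicTrailingCoeffAt F 0 ∧
      ∀ γ θ : ℝ, Real.pi / 2 < γ → 1 < θ →
        Law (fun T => ∑ᶠ x ∈ {x : P × ℕ | 1 ≤ x.2 ∧ q x.1 ^ x.2 ≤ Real.exp (Real.exp (θ * T))},
          tterm q A γ T x.1 x.2) m r₀ (Lam γ) := by
  have E := xd_mat h2 hs hA
  obtain ⟨m, r₀, -, hm, hr, hlaw⟩ := E.law_at (F := F) 0
    (fun x h0 h1 => by
      rw [zero_add]
      refine hmer x h0 ?_
      simpa using h1)
    (fun s hs' => by
      rw [hF s (by linarith)]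
      refine tprod_congr fun v => ?_
      have hq : (q v : ℂ) ≠ 0 := by
        have := h2 v
        exact_mod_cast (by linarith : q v ≠ 0)
      rw [det_eig (A v) (by
        rw [Complex.cpow_def_of_ne_zero hq]
        exact Complex.exp_ne_zero _), ← Finset.prod_inv_distrib])
  refine ⟨m, r₀, hm, hr, fun γ θ hγ hθ => ?_⟩
  have h1 := hlaw γ θ hγ (by
    rw [Complex.zero_re]
    linarith) (by linarith)
  have h3 : (fun T : ℝ => ∑ᶠ x ∈ {x : P × ℕ | 1 ≤ x.2 ∧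
      q x.1 ^ x.2 ≤ Real.exp (Real.exp (θ * T))}, pterm q (shx 0 q fun v => eig (A v)) γ T x.1 x.2) =
      fun T : ℝ => ∑ᶠ x ∈ {x : P × ℕ | 1 ≤ x.2 ∧
        q x.1 ^ x.2 ≤ Real.exp (Real.exp (θ * T))}, tterm q A γ T x.1 x.2 := by
    funext T
    refine finsum_mem_congr rfl fun x hx => ?_
    have hk : x.2 ≠ 0 := by
      have h4 : 1 ≤ x.2 := hx.1
      omega
    unfold pterm tterm shx
    rw [trace_pow_eig (A x.1) hk]
    simp
  rw [h3] at h1
  exact h1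

/-- the constants of the asymptotics are determined -/
theorem const_unique {a b Λ : ℂ} (h : Tendsto (fun T : ℝ => a - b * (Real.log T - Λ)) atTop (𝓝 0)) :
    b = 0 ∧ a = 0 := by
  have hb : b = 0 := by
    by_contra hb
    have h1 : Tendsto (fun T : ℝ => (a - b * (Real.log T - Λ)) * b⁻¹ - a * b⁻¹ - Λ) atTop
        (𝓝 (0 * b⁻¹ - a * b⁻¹ - Λ)) := ((h.mul_const b⁻¹).sub_const _).sub_const _
    have h2 : (fun T : ℝ => (a - b * (Real.log T - Λ)) * b⁻¹ - a * b⁻¹ - Λ) =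
        fun T : ℝ => -((Real.log T : ℝ) : ℂ) := by
      funext T
      field_simp
      ring
    rw [h2] at h1
    have h3 : Tendsto (fun T : ℝ => ‖-((Real.log T : ℝ) : ℂ)‖) atTop atTop := by
      have h4 : (fun T : ℝ => ‖-((Real.log T : ℝ) : ℂ)‖) = fun T => |Real.log T| := by
        funext T
        rw [norm_neg, Complex.norm_real, Real.norm_eq_abs]
      rw [h4]
      exact tendsto_abs_atTop_atTop.comp Real.tendsto_log_atTop
    exact not_tendsto_nhds_of_tendsto_atTop h3 _ h1.norm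
  refine ⟨hb, ?_⟩
  subst hb
  simp only [zero_mul, sub_zero] at h
  exact tendsto_nhds_unique tendsto_const_nhds h

end Pool.Agent.R409.RG
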