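import Pool.Agent.W715.VC.TrPow

/-!
# Eigenvalues of matrices of finite order
-/

set_option autoImplicit false

namespace Pool.Agent.R409.RG

open Polynomial Pool.Agent.W715.VC

/-- a multiset with `n` elements is enumerated by `Fin n` -/
lemma exists_enum (s : Multiset ℂ) {n : ℕ} (hs : s.card = n) :
    ∃ f : Fin n → ℂ, (Finset.univ.val.map f) = s := by
  obtain ⟨l, rfl⟩ := Quot.exists_rep s
  have hl : l.length = n := hs
  subst hl
  refine ⟨fun i => l.get i, ?_⟩
  have h1 : (Finset.univ.val.map fun i : Fin l.length => l.get i) =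
      ((List.finRange l.length).map fun i => l.get i : List ℂ) := rfl
  rw [h1]
  have h2 : (List.finRange l.length).map (fun i => l.get i) = l := List.map_get_finRange l
  rw [h2]
  rfl

/-- the eigenvalues -/
lemma exists_eig {n : ℕ} (A : Matrix (Fin n) (Fin n) ℂ) :
    ∃ f : Fin n → ℂ, (Finset.univ.val.map f) = A.charpoly.roots :=
  exists_enum _ (by rw [card_roots' A, Fintype.card_fin])

/-- the eigenvalues of a matrix, enumerated -/
noncomputable def eig {n : ℕ} (A : Matrix (Fin n) (Fin n) ℂ) : Fin n → ℂ := (exists_eig A).choose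

lemma eig_spec {n : ℕ} (A : Matrix (Fin n) (Fin n) ℂ) :
    (Finset.univ.val.map (eig A)) = A.charpoly.roots := (exists_eig A).choose_spec

lemma trace_pow_eig {n : ℕ} (A : Matrix (Fin n) (Fin n) ℂ) {k : ℕ} (hk : k ≠ 0) :
    (A ^ k).trace = ∑ j, eig A j ^ k := by
  rw [trace_pow A hk, ← eig_spec, Multiset.map_map]
  rfl

lemma det_eig {n : ℕ} (A : Matrix (Fin n) (Fin n) ℂ) {x : ℂ} (hx : x ≠ 0) :
    (1 - x • A).det = ∏ j, (1 - eig A j * x) := by
  have h1 : (1 - x • A) = x • (Matrix.scalar (Fin n) x⁻¹ - A) := by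
    rw [smul_sub]
    congr 1
    ext i j
    by_cases h : i = j
    · subst h
      simp [hx]
    · simp [Matrix.one_apply_ne h, h]
  rw [h1, Matrix.det_smul, det_scalar_sub, ← eig_spec, Multiset.map_map, Fintype.card_fin]
  have h2 : (Finset.univ.val.map ((fun a => x⁻¹ - a) ∘ eig A)).prod =
      ∏ j, (x⁻¹ - eig A j) := rfl
  rw [h2]
  have h3 : x ^ n = ∏ _j : Fin n, x := by simp
  rw [h3, ← Finset.prod_mul_distrib]
  refine Finset.prod_congr rfl fun j _ => ?_
  field_simp

/-- the eigenvalues of a matrix of finite order have absolute value one -/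
lemma norm_eig {n : ℕ} (A : Matrix (Fin n) (Fin n) ℂ) {N : ℕ} (hN : N ≠ 0) (hA : A ^ N = 1)
    (j : Fin n) : ‖eig A j‖ = 1 := by
  have h1 := charpoly_pow A hN
  rw [hA, ← eig_spec, Multiset.map_map] at h1
  have h2 : (Polynomial.X - Polynomial.C (eig A j ^ N)) ∣ (1 : Matrix (Fin n) (Fin n) ℂ).charpoly := by
    rw [h1]
    refine Multiset.dvd_prod ?_
    rw [Multiset.mem_map]
    exact ⟨j, Finset.mem_univ_val j, rfl⟩
  have h3 : (1 : Matrix (Fin n) (Fin n) ℂ).charpoly.IsRoot (eig A j ^ N) :=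
    Polynomial.dvd_iff_isRoot.1 h2
  rw [Matrix.charpoly_one] at h3
  have h4 : (eig A j ^ N - 1) ^ (Fintype.card (Fin n)) = 0 := by
    have := h3
    rw [Polynomial.IsRoot.def] at this
    simpa using this
  have h5 : eig A j ^ N = 1 := sub_eq_zero.1 (eq_zero_of_pow_eq_zero h4)
  exact (pow_eq_one_iff_of_nonneg (norm_nonneg _) hN).1 (by rw [← norm_pow, h5, norm_one])

end Pool.Agent.R409.RG
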